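import Pool.Agent.H20.SpreadB

set_option autoImplicit false

namespace Pool.Agent.Results.MP_1d4a49_gt.NoCompactification

open Topology Pool.Agent.H20.Spread

universe u

/-- There is a completely regular Hausdorff space `X` of countable hereditary cellularity
(indeed a countable one) such that no compact Hausdorff extension of `X` has countable
hereditary cellularity. -/
theorem result : ∃ (X : Type) (_ : TopologicalSpace X), T35Space X ∧ Countable X ∧
    HCellLE X Cardinal.aleph0 ∧
    ∀ (K : Type u) [TopologicalSpace K] [CompactSpace K] [T2Space K] (e : X → K),
      IsEmbedding e → DenseRange e → ¬ HCellLE K Cardinal.aleph0 := by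
  have hc : Countable Dns := dns_countable.to_subtype
  refine ⟨Dns, inferInstance, inferInstance, hc, hcell_of_countable, ?_⟩
  intro K _ _ _ e he hd
  exact not_hcell (e ⟨fun _ => false, 0, fun _ => false, rfl⟩) (bigPi e he hd _)

end Pool.Agent.Results.MP_1d4a49_gt.NoCompactification
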